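import Mathlib

/-! Field computations behind the walks of length five. -/

namespace Pool.Agent.Lib.MP_7874c9_co.G7

variable {F : Type*} [Field F]

/-- nonzero squares -/
def Sq (x : F) : Prop := x ≠ 0 ∧ IsSquare x

/-- what is used about the field -/
structure Good (F : Type*) [Field F] : Prop where
  sq : ∀ s : F, IsSquare s ∨ IsSquare (-s)
  neg : ¬ IsSquare (-1 : F)
  n2 : (2 : F) ≠ 0
  n3 : (3 : F) ≠ 0
  n5 : (5 : F) ≠ 0
  n7 : (7 : F) ≠ 0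

theorem Good.not_both (h : Good F) {x : F} (h1 : Sq x) : ¬ Sq (-x) := by
  rintro ⟨-, b, hb⟩
  obtain ⟨h0, a, ha⟩ := h1
  have ha0 : a ≠ 0 := by rintro rfl; exact h0 (by simpa using ha)
  refine h.neg ⟨b / a, ?_⟩
  field_simp
  linear_combination hb + ha

theorem Good.exists_sq (h : Good F) {s : F} (hs : s ≠ 0) : ∃ x, Sq x ∧ s ^ 2 = x ^ 2 := by
  rcases h.sq s with h1 | h1
  · exact ⟨s, ⟨hs, h1⟩, rfl⟩
  · exact ⟨-s, ⟨neg_ne_zero.2 hs, h1⟩, by ring⟩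

theorem Good.sq_or (h : Good F) {α β w : F} (e : α * β = -w ^ 2) :
    IsSquare α ∨ IsSquare β := by
  by_cases h0 : α = 0
  · exact Or.inl ⟨0, by simp [h0]⟩
  rcases h.sq α with h1 | ⟨a, ha⟩
  · exact Or.inl h1
  · have ha0 : a ≠ 0 := by rintro rfl; exact h0 (by simpa using ha)
    refine Or.inr ⟨w / a, ?_⟩
    field_simp
    linear_combination -β * ha - e

theorem Good.two_of_three (h : Good F) (a b c : F) :
    IsSquare (a * b) ∨ IsSquare (a * c) ∨ IsSquare (b * c) := by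
  have k : ∀ {u v : F}, IsSquare (-u) → IsSquare (-v) → IsSquare (u * v) := fun hu hv => by
    simpa using hu.mul hv
  rcases h.sq a with ha | ha <;> rcases h.sq b with hb | hb <;> rcases h.sq c with hc | hc
  · exact Or.inl (ha.mul hb)
  · exact Or.inl (ha.mul hb)
  · exact Or.inr (Or.inl (ha.mul hc))
  · exact Or.inr (Or.inr (k hb hc))
  · exact Or.inr (Or.inr (hb.mul hc))
  · exact Or.inr (Or.inl (k ha hc))
  · exact Or.inl (k ha hb)
  · exact Or.inl (k ha hb)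

theorem Good.sq_add_one (h : Good F) (d : F) : d ^ 2 + 1 ≠ 0 := fun e =>
  h.neg ⟨d, by linear_combination -e⟩

/-- two steps with a prescribed sum -/
theorem two_steps {t1 t2 a b d : F} (hT : t1 + t2 ≠ 0)
    (e : t1 * t2 * d ^ 2 = (t1 + t2) * b - a ^ 2) :
    t1 * ((a + t2 * d) / (t1 + t2)) + t2 * ((a - t1 * d) / (t1 + t2)) = a ∧
      t1 * ((a + t2 * d) / (t1 + t2)) ^ 2 + t2 * ((a - t1 * d) / (t1 + t2)) ^ 2 = b := by
  constructor
  · field_simp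
    ring
  · field_simp
    linear_combination (t1 + t2) * e

theorem root_of_sq {τ c : F} (hτ : τ ≠ 0) (h : IsSquare (c * τ)) : ∃ d, τ * d ^ 2 = c := by
  obtain ⟨w, hw⟩ := h
  refine ⟨w / τ, ?_⟩
  field_simp
  linear_combination -hw

theorem quad_roots [DecidableEq F] (p r : F) :
    ∃ E : Finset F, E.card ≤ 2 ∧ ∀ x, x ^ 2 + p * x + r = 0 → x ∈ E := by
  by_cases h : ∃ x0, x0 ^ 2 + p * x0 + r = 0
  · obtain ⟨x0, h0⟩ := h
    refine ⟨{x0, -p - x0}, Finset.card_le_two, fun x hx => ?_⟩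
    have : (x - x0) * (x - (-p - x0)) = 0 := by linear_combination hx - h0
    rcases mul_eq_zero.1 this with e | e <;> simp [sub_eq_zero.1 e]
  · exact ⟨∅, by simp, fun x hx => (h ⟨x, hx⟩).elim⟩

theorem lin_root {α δ x : F} (h : ¬ (α = 0 ∧ δ = 0)) (hx : x ≠ -α / δ) : α + δ * x ≠ 0 := by
  intro e
  by_cases hδ : δ = 0
  · exact h ⟨by simpa [hδ] using e, hδ⟩
  · apply hx
    field_simp
    linear_combination e

variable [DecidableEq F]

/-- there are many nonzero squares -/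
def Many (F : Type*) [Field F] (r : ℕ) : Prop :=
  ∀ E : Finset F, E.card ≤ 2 * r + 4 → ∃ x, Sq x ∧ x ∉ E

theorem Many.avoid {r : ℕ} (h : Many F r) (a b c d : F) :
    ∃ x, Sq x ∧ x ≠ a ∧ x ≠ b ∧ x ≠ c ∧ x ≠ d := by
  obtain ⟨x, h1, h2⟩ := h {a, b, c, d} (le_trans Finset.card_le_four (by omega))
  exact ⟨x, h1, by simpa [not_or] using h2⟩

theorem good_layer (h : Good F) {r : ℕ} (hm : Many F r) {T : F} (hT : T ≠ 0) (c x0 x1 : F) :
    ∃ x v, Sq x ∧ x ≠ x0 ∧ x ≠ x1 ∧ T ^ 2 * x ^ 2 - c ^ 2 = v ^ 2 := by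
  by_cases hc : c = 0
  · obtain ⟨x, h1, h2, h3, -⟩ := hm.avoid x0 x1 x0 x0
    exact ⟨x, T * x, h1, h2, h3, by rw [hc]; ring⟩
  have n2 := h.n2
  have n3 := h.n3
  have n5 := h.n5
  have n7 := h.n7
  have n4 : (4 : F) ≠ 0 := by
    rw [show (4 : F) = 2 * 2 by norm_num]; exact mul_ne_zero n2 n2
  obtain ⟨a1, s1, e1⟩ := h.exists_sq (s := c / T) (div_ne_zero hc hT)
  obtain ⟨a2, s2, e2⟩ := h.exists_sq (s := 5 * c / (4 * T))
    (div_ne_zero (mul_ne_zero n5 hc) (mul_ne_zero n4 hT))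
  obtain ⟨a3, s3, e3⟩ := h.exists_sq (s := 5 * c / (3 * T))
    (div_ne_zero (mul_ne_zero n5 hc) (mul_ne_zero n3 hT))
  have f1 : T ^ 2 * a1 ^ 2 - c ^ 2 = 0 ^ 2 := by rw [← e1]; field_simp; ring
  have f2 : T ^ 2 * a2 ^ 2 - c ^ 2 = (3 * c / 4) ^ 2 := by rw [← e2]; field_simp; ring
  have f3 : T ^ 2 * a3 ^ 2 - c ^ 2 = (4 * c / 3) ^ 2 := by rw [← e3]; field_simp; ring
  have d12 : a1 ≠ a2 := by
    rintro rfl
    exact pow_ne_zero 2 (div_ne_zero (mul_ne_zero n3 hc) n4) (by linear_combination f1 - f2)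
  have d13 : a1 ≠ a3 := by
    rintro rfl
    exact pow_ne_zero 2 (div_ne_zero (mul_ne_zero n4 hc) n3) (by linear_combination f1 - f3)
  have d23 : a2 ≠ a3 := by
    rintro rfl
    have e : (3 * c / 4) ^ 2 = (4 * c / 3) ^ 2 := by linear_combination f3 - f2
    field_simp at e
    exact mul_ne_zero (pow_ne_zero 2 n5) n7 (by linear_combination -e)
  by_cases k1 : a1 ≠ x0 ∧ a1 ≠ x1
  · exact ⟨a1, _, s1, k1.1, k1.2, f1⟩
  by_cases k2 : a2 ≠ x0 ∧ a2 ≠ x1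
  · exact ⟨a2, _, s2, k2.1, k2.2, f2⟩
  refine ⟨a3, _, s3, ?_, ?_, f3⟩ <;> grind

/-- point to point -/
theorem alg_pp (h : Good F) {r : ℕ} (hm : Many F r) (x0 x1 a b : F)
    (h1 : ¬ (x1 = x0 ∧ a = 0 ∧ b = 0)) (h2 : ¬ (Sq x0 ∧ x1 = x0 ∧ a = 0 ∧ b ^ 2 = x0 ^ 2)) :
    ∃ x e l1 l2, Sq x ∧ x ≠ x0 ∧ x ≠ x1 ∧ e ^ 2 = x ^ 2 ∧
      (x - x0) * l1 + (x1 - x) * l2 = a ∧ (x - x0) * l1 ^ 2 + (x1 - x) * l2 ^ 2 = b - e := by
  by_cases hT : x1 = x0
  · subst hT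
    by_cases ha : a = 0
    · obtain ⟨x, s, e⟩ := h.exists_sq (s := b) fun hb => h1 ⟨rfl, ha, hb⟩
      have : x ≠ x1 := by rintro rfl; exact h2 ⟨s, rfl, ha, e⟩
      exact ⟨x, b, 0, 0, s, this, this, e, by simp [ha], by simp⟩
    · obtain ⟨x, s, hx, -⟩ := hm.avoid x1 x1 x1 x1
      have ht : x - x1 ≠ 0 := sub_ne_zero.2 hx
      have n2 := h.n2
      refine ⟨x, x, ((b - x) / a + a / (x - x1)) / 2, ((b - x) / a - a / (x - x1)) / 2,
        s, hx, hx, rfl, ?_, ?_⟩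
      · field_simp
        ring
      · field_simp
        ring
  · have hT' : x1 - x0 ≠ 0 := sub_ne_zero.2 hT
    obtain ⟨x, v, s, k0, k1, e⟩ := good_layer h hm hT' ((x1 - x0) * b - a ^ 2) x0 x1
    have hτ : (x - x0) * (x1 - x) ≠ 0 :=
      mul_ne_zero (sub_ne_zero.2 k0) (sub_ne_zero.2 k1.symm)
    have hS : (x - x0) + (x1 - x) ≠ 0 := by rwa [show (x - x0) + (x1 - x) = x1 - x0 by ring]
    rcases h.sq_or (α := ((x1 - x0) * b - a ^ 2 - (x1 - x0) * x) * ((x - x0) * (x1 - x)))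
      (β := ((x1 - x0) * b - a ^ 2 + (x1 - x0) * x) * ((x - x0) * (x1 - x)))
      (w := v * ((x - x0) * (x1 - x)))
      (by linear_combination -((x - x0) * (x1 - x)) ^ 2 * e) with q | q
    · obtain ⟨d, hd⟩ := root_of_sq hτ q
      exact ⟨x, x, _, _, s, k0, k1, rfl,
        two_steps (d := d) hS (by linear_combination hd)⟩
    · obtain ⟨d, hd⟩ := root_of_sq hτ q
      exact ⟨x, -x, _, _, s, k0, k1, by ring,
        two_steps (d := d) hS (by linear_combination hd)⟩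

/-- line to line -/
theorem alg_ll (h : Good F) (Y : Finset F) (hm : Many F Y.card) (l l' α γ : F)
    (h1 : ¬ (α = 0 ∧ l - l' = 0)) :
    ∃ x t s, Sq x ∧ x + t ∉ Y ∧ t ≠ 0 ∧ s ≠ l' ∧ α + (l - l') * x + t * (s - l') = 0 ∧
      γ + (l ^ 2 - l' ^ 2 + 1) * x + t * (s ^ 2 - l' ^ 2) = 0 := by
  choose E hE1 hE2 using fun y : F =>
    quad_roots (-(2 * l' * α - γ) - y * ((l - l') ^ 2 + 1) - 2 * α * (l - l'))
      (y * (2 * l' * α - γ) - α ^ 2)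
  obtain ⟨x, s, hx⟩ := hm (insert (-α / (l - l'))
      (insert (-(2 * l' * α - γ) / (-((l - l') ^ 2 + 1))) (Y.biUnion E))) (by
    have := Finset.card_biUnion_le_card_mul Y E 2 fun y _ => hE1 y
    have := Finset.card_insert_le (-(2 * l' * α - γ) / (-((l - l') ^ 2 + 1))) (Y.biUnion E)
    have := Finset.card_insert_le (-α / (l - l'))
      (insert (-(2 * l' * α - γ) / (-((l - l') ^ 2 + 1))) (Y.biUnion E))
    omega)
  simp only [Finset.mem_insert, Finset.mem_biUnion, not_or, not_exists, not_and] at hx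
  obtain ⟨k1, k2, k3⟩ := hx
  have hA := lin_root h1 k1
  have hB := lin_root (fun e => h.sq_add_one _ (neg_eq_zero.1 e.2)) k2
  set A := α + (l - l') * x with hA'
  set B := 2 * l' * α - γ + -((l - l') ^ 2 + 1) * x with hB'
  refine ⟨x, A ^ 2 / B, l' - B / A, s, fun hy => k3 _ hy (hE2 _ _ ?_),
    div_ne_zero (pow_ne_zero 2 hA) hB, by simpa using ⟨hB, hA⟩, ?_, ?_⟩
  · have : A ^ 2 / B * B = A ^ 2 := by field_simp
    rw [hA', hB'] at this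
    rw [hA', hB']
    linear_combination this
  · field_simp
    ring
  · have : A ^ 2 / B * ((l' - B / A) ^ 2 - l' ^ 2) = B - 2 * l' * A := by
      field_simp
      ring
    rw [this, hA', hB']
    ring

/-- point to line -/
theorem alg_pl (h : Good F) {r : ℕ} (hm : Many F r) (x0 l A C : F) (h1 : ¬ (A = 0 ∧ C = 0)) :
    ∃ x1 x2 l1 l2, Sq x1 ∧ Sq x2 ∧ x1 ≠ x0 ∧ x2 ≠ x1 ∧ l1 ≠ l2 ∧ l2 ≠ l ∧
      (x1 - x0) * l1 + (x2 - x1) * l2 = A + l * (x2 - x0) ∧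
      (x1 - x0) * l1 ^ 2 + (x2 - x1) * l2 ^ 2 = C + l ^ 2 * (x2 - x0) := by
  have hK : ∀ x, x ≠ -(-x0 * (C - 2 * l * A) - A ^ 2) / (C - 2 * l * A) →
      (x - x0) * (C - 2 * l * A) - A ^ 2 ≠ 0 := by
    intro x hx e
    refine lin_root (fun k => h1 ?_) hx (by linear_combination e)
    have hA : A = 0 := pow_eq_zero_iff (n := 2) (by norm_num) |>.1
      (by linear_combination -k.1 - x0 * k.2)
    exact ⟨hA, by linear_combination k.2 + 2 * l * hA⟩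
  have one : ∀ x1 x2, Sq x1 → Sq x2 → x1 ≠ x0 → x2 ≠ x0 → x2 ≠ x1 →
      (x2 - x0) * (C - 2 * l * A) - A ^ 2 ≠ 0 →
      IsSquare (((x2 - x0) * (C - 2 * l * A) - A ^ 2) * ((x1 - x0) * (x2 - x1))) →
      ∃ x1 x2 l1 l2, Sq x1 ∧ Sq x2 ∧ x1 ≠ x0 ∧ x2 ≠ x1 ∧ l1 ≠ l2 ∧ l2 ≠ l ∧
      (x1 - x0) * l1 + (x2 - x1) * l2 = A + l * (x2 - x0) ∧
      (x1 - x0) * l1 ^ 2 + (x2 - x1) * l2 ^ 2 = C + l ^ 2 * (x2 - x0) := by
    intro x1 x2 s1 s2 k1 k2 k3 hk q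
    have t1 := sub_ne_zero.2 k1
    have t2 := sub_ne_zero.2 k3
    have hS : (x1 - x0) + (x2 - x1) ≠ 0 := by
      rw [show (x1 - x0) + (x2 - x1) = x2 - x0 by ring]; exact sub_ne_zero.2 k2
    obtain ⟨d, hd, hd'⟩ : ∃ d, (x1 - x0) * (x2 - x1) * d ^ 2 =
        (x2 - x0) * (C - 2 * l * A) - A ^ 2 ∧ A ≠ (x1 - x0) * d := by
      obtain ⟨d, hd⟩ := root_of_sq (mul_ne_zero t1 t2) q
      by_cases e : A = (x1 - x0) * d
      · refine ⟨-d, by linear_combination hd, fun e' => hk ?_⟩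
        have : d = 0 := (mul_eq_zero.1 (show (2 * (x1 - x0)) * d = 0 by
          linear_combination e' - e)).resolve_left (mul_ne_zero h.n2 t1)
        rw [← hd, this]; ring
      · exact ⟨d, hd, e⟩
    refine ⟨x1, x2, _, _, s1, s2, k1, k3, fun e => hk ?_, fun e => hd' ?_,
      two_steps (d := d) hS (by linear_combination hd)⟩
    · rw [div_left_inj' hS] at e
      have : d = 0 := (mul_eq_zero.1 (show ((x1 - x0) + (x2 - x1)) * d = 0 by
        linear_combination e)).resolve_left hS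
      rw [← hd, this]; ring
    · rw [div_eq_iff hS] at e
      linear_combination e
  have two : ∀ x1 x2, Sq x1 → Sq x2 → x1 ≠ x0 → x2 ≠ x0 → x2 ≠ x1 →
      (x1 - x0) * (C - 2 * l * A) - A ^ 2 ≠ 0 → (x2 - x0) * (C - 2 * l * A) - A ^ 2 ≠ 0 →
      IsSquare ((((x1 - x0) * (C - 2 * l * A) - A ^ 2) * (x1 - x0)) *
        (((x2 - x0) * (C - 2 * l * A) - A ^ 2) * (x2 - x0))) →
      ∃ x1 x2 l1 l2, Sq x1 ∧ Sq x2 ∧ x1 ≠ x0 ∧ x2 ≠ x1 ∧ l1 ≠ l2 ∧ l2 ≠ l ∧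
      (x1 - x0) * l1 + (x2 - x1) * l2 = A + l * (x2 - x0) ∧
      (x1 - x0) * l1 ^ 2 + (x2 - x1) * l2 ^ 2 = C + l ^ 2 * (x2 - x0) := by
    rintro x1 x2 s1 s2 k1 k2 k3 hk1 hk2 ⟨w, hw⟩
    rcases h.sq_or (α := ((x2 - x0) * (C - 2 * l * A) - A ^ 2) * ((x1 - x0) * (x2 - x1)))
      (β := ((x1 - x0) * (C - 2 * l * A) - A ^ 2) * ((x2 - x0) * (x1 - x2)))
      (w := w * (x2 - x1)) (by linear_combination -(x2 - x1) ^ 2 * hw) with q | q
    · exact one x1 x2 s1 s2 k1 k2 k3 hk2 q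
    · exact one x2 x1 s2 s1 k2 k1 k3.symm hk1 q
  obtain ⟨a, sa, a0, a1, -⟩ := hm.avoid x0 (-(-x0 * (C - 2 * l * A) - A ^ 2) / (C - 2 * l * A)) x0 x0
  obtain ⟨b, sb, b0, b1, b2, -⟩ :=
    hm.avoid x0 (-(-x0 * (C - 2 * l * A) - A ^ 2) / (C - 2 * l * A)) a a
  obtain ⟨c, sc, c0, c1, c2, c3⟩ :=
    hm.avoid x0 (-(-x0 * (C - 2 * l * A) - A ^ 2) / (C - 2 * l * A)) a b
  rcases h.two_of_three (((a - x0) * (C - 2 * l * A) - A ^ 2) * (a - x0))
    (((b - x0) * (C - 2 * l * A) - A ^ 2) * (b - x0))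
    (((c - x0) * (C - 2 * l * A) - A ^ 2) * (c - x0)) with q | q | q
  · exact two a b sa sb a0 b0 b2 (hK a a1) (hK b b1) q
  · exact two a c sa sc a0 c0 c2 (hK a a1) (hK c c1) q
  · exact two b c sb sc b0 c0 c3 (hK b b1) (hK c c1) q

end Pool.Agent.Lib.MP_7874c9_co.G7
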