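import Pool.Agent.Lib.MP_7874c9_co.G7.Alg

/-! The graph, its girth and its walks of length five. -/

namespace Pool.Agent.Lib.MP_7874c9_co.G7

variable {F : Type*} [Field F]

/-- incidence of a point and a line -/
def Inc (p l : F × F × F) : Prop :=
  p.2.1 = l.2.1 + l.1 * p.1 ∧ p.2.2 = l.2.2 + l.1 ^ 2 * p.1

/-- vertical step between two points -/
def St (p r : F × F × F) : Prop :=
  Sq p.1 ∧ r.1 = p.1 ∧ r.2.1 = p.2.1 ∧ (r.2.2 - p.2.2) ^ 2 = p.1 ^ 2

/-- adjacency on points and lines -/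
def adj : (F × F × F) ⊕ (F × F × F) → (F × F × F) ⊕ (F × F × F) → Prop
  | .inl p, .inl r => St p r
  | .inl p, .inr l => Inc p l
  | .inr l, .inl p => Inc p l
  | .inr _, .inr _ => False

theorem St.symm {p r : F × F × F} (h : St p r) : St r p := by
  obtain ⟨h1, h2, h3, h4⟩ := h
  exact ⟨h2 ▸ h1, h2.symm, h3.symm, by rw [h2]; linear_combination h4⟩

theorem St.dz {p r : F × F × F} (h : St p r) : r.2.2 - p.2.2 ≠ 0 := fun e =>
  pow_ne_zero 2 h.1.1 (by rw [← h.2.2.2, e]; ring)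

/-- the graph on points and lines -/
def H (F : Type*) [Field F] : SimpleGraph ((F × F × F) ⊕ (F × F × F)) where
  Adj := adj
  symm := ⟨by
    rintro (p | p) (r | r) h
    · exact St.symm h
    · exact h
    · exact h
    · exact h⟩
  loopless := ⟨by
    rintro (p | p) h
    · exact St.dz h (sub_self _)
    · exact h⟩

theorem St.step {p a b : F × F × F} (h1 : St p a) (h2 : St a b) (n : p ≠ b) :
    b.2.2 - a.2.2 = a.2.2 - p.2.2 := by
  have e : (b.2.2 - a.2.2 - (a.2.2 - p.2.2)) * (b.2.2 - p.2.2) = 0 := by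
    have := h2.2.2.2
    rw [h1.2.1] at this
    linear_combination this - h1.2.2.2
  rcases mul_eq_zero.1 e with e | e
  · exact sub_eq_zero.1 e
  · exact absurd (Prod.ext (h2.2.1.trans h1.2.1).symm
      (Prod.ext (h2.2.2.1.trans h1.2.2.1).symm (sub_eq_zero.1 e).symm)) n

theorem Inc.pt {p r l : F × F × F} (h1 : Inc p l) (h2 : Inc r l) (e : r.1 = p.1) : p = r :=
  Prod.ext e.symm (Prod.ext (by rw [h1.1, h2.1, e]) (by rw [h1.2, h2.2, e]))

theorem Inc.ln {p l m : F × F × F} (h1 : Inc p l) (h2 : Inc p m) (e : l.1 = m.1) : l = m :=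
  Prod.ext e (Prod.ext (by linear_combination h2.1 - h1.1 - p.1 * e)
    (by linear_combination h2.2 - h1.2 - p.1 * (l.1 + m.1) * e))

theorem slope_eq {p r p' r' l m : F × F × F} (h1 : Inc p l) (h2 : Inc r l) (h3 : Inc p' m)
    (h4 : Inc r' m) (e1 : p'.1 = p.1) (e2 : p'.2.1 = p.2.1) (e3 : r'.1 = r.1)
    (e4 : r'.2.1 = r.2.1) (n : p ≠ r) : l.1 = m.1 := by
  have e : (r.1 - p.1) * (l.1 - m.1) = 0 := by
    linear_combination h1.1 - h2.1 - h3.1 + h4.1 + e2 - e4 - m.1 * e1 + m.1 * e3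
  rcases mul_eq_zero.1 e with e | e
  · exact absurd (h1.pt h2 (sub_eq_zero.1 e)) n
  · exact sub_eq_zero.1 e

theorem two_lines {p r r' l m : F × F × F} (h1 : Inc p l) (h2 : Inc r l) (h3 : Inc p m)
    (h4 : Inc r' m) (e3 : r'.1 = r.1) (e4 : r'.2.1 = r.2.1) (n : p ≠ r) : l = m :=
  h1.ln h3 (slope_eq h1 h2 h3 h4 rfl rfl e3 e4 n)

theorem two_shifts (h : Good F) {p r p' r' l m : F × F × F} (h1 : Inc p l) (h2 : Inc r l)
    (h3 : Inc p' m) (h4 : Inc r' m) (s1 : St p p') (s2 : St r r') (n : p ≠ r) : False := by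
  have e := slope_eq h1 h2 h3 h4 s1.2.1 s1.2.2.1 s2.2.1 s2.2.2.1 n
  have e1 : p'.2.2 - p.2.2 = r'.2.2 - r.2.2 := by
    have := h3.2
    have := h4.2
    have := h1.2
    have := h2.2
    have := s1.2.1
    have := s2.2.1
    grind
  have e2 : (r.1 - p.1) * (r.1 + p.1) = 0 := by
    have := s1.2.2.2
    rw [e1] at this
    linear_combination this - s2.2.2.2
  rcases mul_eq_zero.1 e2 with k | k
  · exact n (h1.pt h2 (sub_eq_zero.1 k))
  · exact h.not_both s1.1 (eq_neg_of_add_eq_zero_left k ▸ s2.1)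

theorem three_lines {p r s l m k : F × F × F} (h1 : Inc p l) (h2 : Inc p m) (h3 : Inc r m)
    (h4 : Inc r k) (h5 : Inc s k) (h6 : Inc s l) (n1 : l ≠ m) (n2 : l ≠ k) (n3 : p ≠ s) :
    False := by
  have e : (p.1 - s.1) * ((l.1 - m.1) * (l.1 - k.1)) = 0 := by
    linear_combination -(h1.2 - h2.2 + h3.2 - h4.2 + h5.2 - h6.2)
      + (m.1 + k.1) * (h1.1 - h2.1 + h3.1 - h4.1 + h5.1 - h6.1)
  rcases mul_eq_zero.1 e with e | e
  · exact n3 (h1.pt h6 (sub_eq_zero.1 e).symm)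
  · rcases mul_eq_zero.1 e with e | e
    · exact n1 (h1.ln h2 (sub_eq_zero.1 e))
    · exact n2 (h6.ln h5 (sub_eq_zero.1 e))

theorem no3 (h : Good F) {a b c} (h1 : (H F).Adj a b) (h2 : (H F).Adj b c)
    (h3 : (H F).Adj c a) : False := by
  have L : ∀ {l a b : F × F × F}, Inc a l → St a b → Inc b l → False := fun h1 h2 h3 =>
    h2.dz (by rw [h1.pt h3 h2.2.1, sub_self])
  have n1 := h1.ne
  have n2 := h2.ne
  have n3 := h3.ne
  rcases a with a | a <;> rcases b with b | b <;> rcases c with c | c <;>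
    first | exact h1 | exact h2 | exact h3 | exact L h1 h2 h3 | exact L h2 h3 h1
          | exact L h3 h1 h2 | skip
  have e1 := St.step h1 h2 (fun e => n3 (by rw [e]))
  have e2 := St.step h2 h3 (fun e => n1 (by rw [e]))
  exact mul_ne_zero h.n3 (St.dz h1) (by linear_combination -2 * e1 - e2)

theorem no4 (h : Good F) {a b c d} (h1 : (H F).Adj a b) (h2 : (H F).Adj b c)
    (h3 : (H F).Adj c d) (h4 : (H F).Adj d a) (n1 : a ≠ c) (n2 : b ≠ d) : False := by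
  have L : ∀ {l a b c : F × F × F}, Inc a l → St a b → St b c → Inc c l → a = c :=
    fun h1 h2 h3 h4 => h1.pt h4 (h3.2.1.trans h2.2.1)
  have M : ∀ {l a m c : F × F × F}, Inc a l → Inc a m → Inc c m → Inc c l → a = c ∨ l = m :=
    fun h1 h2 h3 h4 => or_iff_not_imp_left.2 fun n => two_lines h1 h4 h2 h3 rfl rfl n
  rcases a with a | a <;> rcases b with b | b <;> rcases c with c | c <;> rcases d with d | d <;>
    simp only [ne_eq, Sum.inl.injEq, Sum.inr.injEq] at n1 n2 <;>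
    first | exact h1 | exact h2 | exact h3 | exact h4
          | exact n2 (L h1 h2 h3 h4) | exact n1 (L h2 h3 h4 h1).symm
          | exact n2 (L h3 h4 h1 h2).symm | exact n1 (L h4 h1 h2 h3)
          | exact (M h1 h2 h3 h4).elim n2 n1 | exact (M h4 h1 h2 h3).elim n1 (Ne.symm n2) | skip
  have e1 := St.step h1 h2 n1
  have e2 := St.step h2 h3 n2
  have e3 := St.step h3 h4 (Ne.symm n1)
  exact mul_ne_zero (mul_ne_zero h.n2 h.n2) (St.dz h1)
    (by linear_combination -3 * e1 - 2 * e2 - e3)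

theorem no5 (h : Good F) {a b c d e} (h1 : (H F).Adj a b) (h2 : (H F).Adj b c)
    (h3 : (H F).Adj c d) (h4 : (H F).Adj d e) (h5 : (H F).Adj e a) (n1 : a ≠ c) (n2 : b ≠ d)
    (n3 : c ≠ e) (n4 : d ≠ a) (n5 : e ≠ b) : False := by
  have L : ∀ {l a b c d : F × F × F}, Inc a l → St a b → St b c → St c d → Inc d l → d = a :=
    fun h1 h2 h3 h4 h5 => (h1.pt h5 (h4.2.1.trans (h3.2.1.trans h2.2.1))).symm
  have M : ∀ {l a m c d : F × F × F}, Inc a l → Inc a m → Inc c m → St c d → Inc d l →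
      ¬ l = m → ¬ d = a → False :=
    fun h1 h2 h3 h4 h5 n n' => n (two_lines h1 h5 h2 h3 h4.2.1.symm h4.2.2.1.symm (Ne.symm n'))
  rcases a with a | a <;> rcases b with b | b <;> rcases c with c | c <;> rcases d with d | d <;>
    rcases e with e | e <;>
    simp only [ne_eq, Sum.inl.injEq, Sum.inr.injEq] at n1 n2 n3 n4 n5 <;>
    first | exact h1 | exact h2 | exact h3 | exact h4 | exact h5
          | exact n5 (L h1 h2 h3 h4 h5) | exact n1 (L h2 h3 h4 h5 h1)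
          | exact n2 (L h3 h4 h5 h1 h2) | exact n3 (L h4 h5 h1 h2 h3)
          | exact n4 (L h5 h1 h2 h3 h4)
          | exact M h1 h2 h3 h4 h5 n1 n5 | exact M h2 h3 h4 h5 h1 n2 n1
          | exact M h3 h4 h5 h1 h2 n3 n2 | exact M h4 h5 h1 h2 h3 n4 n3
          | exact M h5 h1 h2 h3 h4 n5 n4 | skip
  have e1 := St.step h1 h2 n1
  have e2 := St.step h2 h3 n2
  have e3 := St.step h3 h4 n3
  have e4 := St.step h4 h5 n4
  exact mul_ne_zero h.n5 (St.dz h1) (by linear_combination -4 * e1 - 3 * e2 - 2 * e3 - e4)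

theorem no6 (h : Good F) {a b c d e f} (h1 : (H F).Adj a b) (h2 : (H F).Adj b c)
    (h3 : (H F).Adj c d) (h4 : (H F).Adj d e) (h5 : (H F).Adj e f) (h6 : (H F).Adj f a)
    (n1 : a ≠ c) (n2 : b ≠ d) (n3 : c ≠ e) (n4 : d ≠ f) (n5 : e ≠ a) (n6 : f ≠ b) : False := by
  have L : ∀ {l a b c d e : F × F × F}, Inc a l → St a b → St b c → St c d → St d e →
      Inc e l → e = a :=
    fun h1 h2 h3 h4 h5 h6 =>
      (h1.pt h6 (h5.2.1.trans (h4.2.1.trans (h3.2.1.trans h2.2.1)))).symm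
  have M : ∀ {l a m c d e : F × F × F}, Inc a l → Inc a m → Inc c m → St c d → St d e →
      Inc e l → ¬ l = m → ¬ e = a → False :=
    fun h1 h2 h3 h4 h5 h6 n n' => n (two_lines h1 h6 h2 h3 (h5.2.1.trans h4.2.1).symm
      (h5.2.2.1.trans h4.2.2.1).symm (Ne.symm n'))
  have N : ∀ {l a b m c d : F × F × F}, Inc a l → St a b → Inc b m → Inc c m → St c d →
      Inc d l → ¬ d = a → False :=
    fun h1 h2 h3 h4 h5 h6 n => two_shifts h h1 h6 h3 h4 h2 h5.symm (Ne.symm n)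
  have K : ∀ {l a m b k c : F × F × F}, Inc a l → Inc a m → Inc b m → Inc b k → Inc c k →
      Inc c l → ¬ l = m → ¬ k = l → ¬ c = a → False :=
    fun h1 h2 h3 h4 h5 h6 n n' n'' => three_lines h1 h2 h3 h4 h5 h6 n (Ne.symm n') (Ne.symm n'')
  rcases a with a | a <;> rcases b with b | b <;> rcases c with c | c <;> rcases d with d | d <;>
    rcases e with e | e <;> rcases f with f | f <;>
    simp only [ne_eq, Sum.inl.injEq, Sum.inr.injEq] at n1 n2 n3 n4 n5 n6 <;>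
    first | exact h1 | exact h2 | exact h3 | exact h4 | exact h5 | exact h6
          | exact n6 (L h1 h2 h3 h4 h5 h6) | exact n1 (L h2 h3 h4 h5 h6 h1)
          | exact n2 (L h3 h4 h5 h6 h1 h2) | exact n3 (L h4 h5 h6 h1 h2 h3)
          | exact n4 (L h5 h6 h1 h2 h3 h4) | exact n5 (L h6 h1 h2 h3 h4 h5)
          | exact M h1 h2 h3 h4 h5 h6 n1 n6 | exact M h2 h3 h4 h5 h6 h1 n2 n1
          | exact M h3 h4 h5 h6 h1 h2 n3 n2 | exact M h4 h5 h6 h1 h2 h3 n4 n3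
          | exact M h5 h6 h1 h2 h3 h4 n5 n4 | exact M h6 h1 h2 h3 h4 h5 n6 n5
          | exact N h1 h2 h3 h4 h5 h6 n6 | exact N h2 h3 h4 h5 h6 h1 n1
          | exact N h3 h4 h5 h6 h1 h2 n2
          | exact K h1 h2 h3 h4 h5 h6 n1 n5 n6 | exact K h2 h3 h4 h5 h6 h1 n2 n6 n1 | skip
  have e1 := St.step h1 h2 n1
  have e2 := St.step h2 h3 n2
  have e3 := St.step h3 h4 n3
  have e4 := St.step h4 h5 n4
  have e5 := St.step h5 h6 n5
  exact mul_ne_zero (mul_ne_zero h.n2 h.n3) (St.dz h1)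
    (by linear_combination -5 * e1 - 4 * e2 - 3 * e3 - 2 * e4 - e5)

/-- vertices outside the layers in `Y` -/
def Ok (Y : Finset F) : (F × F × F) ⊕ (F × F × F) → Prop
  | .inl p => p.1 ∉ Y
  | .inr _ => True

/-- a walk of length five without backtracking through vertices outside the layers in `Y` -/
def W5 (Y : Finset F) (u v : (F × F × F) ⊕ (F × F × F)) : Prop :=
  ∃ a b c d, (Ok Y a ∧ Ok Y b ∧ Ok Y c ∧ Ok Y d) ∧ ((H F).Adj u a ∧ (H F).Adj a b ∧
    (H F).Adj b c ∧ (H F).Adj c d ∧ (H F).Adj d v) ∧ u ≠ b ∧ a ≠ c ∧ b ≠ d ∧ c ≠ v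

theorem W5.symm {Y : Finset F} {u v} (h : W5 Y u v) : W5 Y v u := by
  obtain ⟨a, b, c, d, ⟨o1, o2, o3, o4⟩, ⟨h1, h2, h3, h4, h5⟩, n1, n2, n3, n4⟩ := h
  exact ⟨d, c, b, a, ⟨o4, o3, o2, o1⟩, ⟨h5.symm, h4.symm, h3.symm, h2.symm, h1.symm⟩,
    n4.symm, n3.symm, n2.symm, n1.symm⟩

variable [DecidableEq F]

theorem w5_pl (h : Good F) (Y : Finset F) (hY : ∀ x, Sq x → x ∉ Y) (hm : Many F Y.card)
    (p l : F × F × F) (hn : ¬ Inc p l) : W5 Y (.inl p) (.inr l) := by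
  obtain ⟨x0, y0, z0⟩ := p
  obtain ⟨l, m, k⟩ := l
  obtain ⟨x1, x2, l1, l2, s1, s2, k1, k2, k3, k4, e1, e2⟩ :=
    alg_pl h hm x0 l (m + l * x0 - y0) (k + l ^ 2 * x0 - z0)
      fun e => hn ⟨(sub_eq_zero.1 e.1).symm, (sub_eq_zero.1 e.2).symm⟩
  refine ⟨.inr (l1, y0 - l1 * x0, z0 - l1 ^ 2 * x0),
    .inl (x1, y0 + (x1 - x0) * l1, z0 + (x1 - x0) * l1 ^ 2),
    .inr (l2, m + l * x2 - l2 * x2, k + l ^ 2 * x2 - l2 ^ 2 * x2),
    .inl (x2, m + l * x2, k + l ^ 2 * x2), ⟨trivial, hY _ s1, trivial, hY _ s2⟩,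
    ⟨⟨?_, ?_⟩, ⟨?_, ?_⟩, ⟨?_, ?_⟩, ⟨?_, ?_⟩, ⟨rfl, rfl⟩⟩, by simp [k1.symm], by simp [k3],
    by simp [k2.symm], by simp [k4]⟩ <;> dsimp only <;>
    first | ring1 | linear_combination e1 | linear_combination e2

theorem walk5 (h : Good F) (Y : Finset F) (hY : ∀ x, Sq x → x ∉ Y) (hm : Many F Y.card)
    (u v : (F × F × F) ⊕ (F × F × F)) (huv : u ≠ v) (hn : ¬ (H F).Adj u v) : W5 Y u v := by
  rcases u with p | p <;> rcases v with r | r
  · obtain ⟨x0, y0, z0⟩ := p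
    obtain ⟨x1, y1, z1⟩ := r
    obtain ⟨x, e, l1, l2, s, k0, k1, he, e1, e2⟩ := alg_pp h hm x0 x1 (y1 - y0) (z1 - z0)
      (fun e => huv (by rw [e.1, sub_eq_zero.1 e.2.1, sub_eq_zero.1 e.2.2]))
      fun e => hn ⟨e.1, e.2.1, sub_eq_zero.1 e.2.2.1, e.2.2.2⟩
    refine ⟨.inr (l1, y0 - l1 * x0, z0 - l1 ^ 2 * x0),
      .inl (x, y0 + (x - x0) * l1, z0 + (x - x0) * l1 ^ 2),
      .inl (x, y0 + (x - x0) * l1, z0 + (x - x0) * l1 ^ 2 + e),
      .inr (l2, y1 - l2 * x1, z1 - l2 ^ 2 * x1), ⟨trivial, hY _ s, hY _ s, trivial⟩,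
      ⟨⟨?_, ?_⟩, ⟨?_, ?_⟩, ⟨s, rfl, rfl, ?_⟩, ⟨?_, ?_⟩, ⟨?_, ?_⟩⟩, by simp [k0.symm], by simp,
      by simp, by simp [k1]⟩ <;> dsimp only <;>
      first | ring1 | linear_combination e1 | linear_combination e2 | linear_combination he
  · exact w5_pl h Y hY hm p r hn
  · exact (w5_pl h Y hY hm r p hn).symm
  · obtain ⟨l, m, k⟩ := p
    obtain ⟨l', m', k'⟩ := r
    by_cases c : m - m' = 0 ∧ l - l' = 0
    · obtain rfl := sub_eq_zero.1 c.1
      obtain rfl := sub_eq_zero.1 c.2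
      have n3 := h.n3
      have hk : (k' - k) / 3 ≠ 0 :=
        div_ne_zero (fun e => huv (by rw [sub_eq_zero.1 e])) n3
      obtain ⟨x, s, he⟩ := h.exists_sq hk
      have e3 : 3 * ((k' - k) / 3) = k' - k := by field_simp
      generalize (k' - k) / 3 = e at hk he e3
      have h2 := mul_ne_zero h.n2 hk
      refine ⟨.inl (x, m + l * x, k + l ^ 2 * x), .inl (x, m + l * x, k + l ^ 2 * x + e),
        .inl (x, m + l * x, k + l ^ 2 * x + 2 * e), .inl (x, m + l * x, k' + l ^ 2 * x),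
        ⟨hY _ s, hY _ s, hY _ s, hY _ s⟩, ⟨⟨rfl, rfl⟩, ⟨s, rfl, rfl, ?_⟩, ⟨s, rfl, rfl, ?_⟩,
        ⟨s, rfl, rfl, ?_⟩, ⟨rfl, rfl⟩⟩, by simp, by simpa using h2, fun q => h2 ?_, by simp⟩
      · dsimp only; linear_combination he
      · dsimp only; linear_combination he
      · dsimp only; linear_combination he - (k' - k - e) * e3
      · simp only [Sum.inl.injEq, Prod.mk.injEq, true_and] at q
        linear_combination e3 - q
    · obtain ⟨x, t, s, hx, hy, ht, hs, e1, e2⟩ := alg_ll h Y hm l l' (m - m') (k - k') c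
      refine ⟨.inl (x, m + l * x, k + l ^ 2 * x), .inl (x, m + l * x, k + l ^ 2 * x + x),
        .inr (s, m + l * x - s * x, k + l ^ 2 * x + x - s ^ 2 * x),
        .inl (x + t, m' + l' * (x + t), k' + l' ^ 2 * (x + t)),
        ⟨hY _ hx, hY _ hx, trivial, hy⟩, ⟨⟨rfl, rfl⟩, ⟨hx, rfl, rfl, ?_⟩, ⟨?_, ?_⟩, ⟨?_, ?_⟩,
        ⟨rfl, rfl⟩⟩, by simp, by simp, by simp [ht], by simp [hs]⟩ <;> dsimp only <;>
        first | ring1 | linear_combination -e1 | linear_combination -e2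

end Pool.Agent.Lib.MP_7874c9_co.G7
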