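import Pool.Agent.Lib.MP_7874c9_co.G7.Graph
import Pool.Agent.Shared.PNT.Main

/-! Deleting points, counting squares and choosing the prime. -/

open SimpleGraph Finset Filter Topology

namespace Pool.Agent.Lib.MP_7874c9_co.G7

theorem six_of_path {V : Type*} (G : SimpleGraph V) (u a b c d v : V)
    (h1 : G.Adj u a) (h2 : G.Adj a b) (h3 : G.Adj b c) (h4 : G.Adj c d) (h5 : G.Adj d v)
    (h6 : G.Adj v u) (n1 : u ≠ b) (n2 : u ≠ c) (n3 : u ≠ d) (n4 : a ≠ c) (n5 : a ≠ d)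
    (n6 : a ≠ v) (n7 : b ≠ d) (n8 : b ≠ v) (n9 : c ≠ v) : cycleGraph 6 ⊑ G := by
  have := h1.ne; have := h2.ne; have := h3.ne; have := h4.ne; have := h5.ne; have := h6.ne
  have := h1.symm; have := h2.symm; have := h3.symm; have := h4.symm; have := h5.symm
  have := h6.symm
  refine ⟨⟨⟨![u, a, b, c, d, v], ?_⟩, ?_⟩⟩
  · intro i j h
    fin_cases i <;> fin_cases j <;>
      first | assumption | exact absurd h (by decide)
  · intro i j h
    fin_cases i <;> fin_cases j <;>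
      first | rfl | exact absurd h (by assumption) | exact absurd h.symm (by assumption)

theorem graph_of_map {F : Type*} [Field F] [DecidableEq F] (h : Good F) (Y : Finset F)
    (hY : ∀ x, Sq x → x ∉ Y) (hm : Many F Y.card) {n : ℕ}
    (φ : Fin n → (F × F × F) ⊕ (F × F × F)) (hφ : Function.Injective φ)
    (hO : ∀ v, Ok Y v → ∃ i, φ i = v) :
    ∃ G : SimpleGraph (Fin n), (¬ cycleGraph 6 ⊑ G ∧
      ∀ u v, u ≠ v → ¬ G.Adj u v → cycleGraph 6 ⊑ G ⊔ edge u v) ∧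
      ¬ cycleGraph 3 ⊑ G ∧ ¬ cycleGraph 4 ⊑ G ∧ ¬ cycleGraph 5 ⊑ G := by
  have key : ∀ k, cycleGraph k ⊑ (H F).comap φ → ∃ f : Fin k → (F × F × F) ⊕ (F × F × F),
      (∀ i j, (cycleGraph k).Adj i j → (H F).Adj (f i) (f j)) ∧ ∀ i j, i ≠ j → f i ≠ f j :=
    fun k ⟨f⟩ => ⟨fun i => φ (f i), fun i j e => f.toHom.map_rel e,
      fun i j e e' => e (f.injective (hφ e'))⟩
  refine ⟨(H F).comap φ, ⟨fun c => ?_, fun u v huv hn => ?_⟩, fun c => ?_, fun c => ?_,
    fun c => ?_⟩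
  · obtain ⟨f, a, m⟩ := key _ c
    exact no6 h (a 0 1 (by decide)) (a 1 2 (by decide)) (a 2 3 (by decide)) (a 3 4 (by decide))
      (a 4 5 (by decide)) (a 5 0 (by decide)) (m _ _ (by decide)) (m _ _ (by decide))
      (m _ _ (by decide)) (m _ _ (by decide)) (m _ _ (by decide)) (m _ _ (by decide))
  · obtain ⟨a, b, c, d, ⟨o1, o2, o3, o4⟩, ⟨h1, h2, h3, h4, h5⟩, n1, n2, n3, n4⟩ :=
      walk5 h Y hY hm (φ u) (φ v) (hφ.ne huv) hn
    obtain ⟨a, rfl⟩ := hO a o1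
    obtain ⟨b, rfl⟩ := hO b o2
    obtain ⟨c, rfl⟩ := hO c o3
    obtain ⟨d, rfl⟩ := hO d o4
    refine six_of_path _ u a b c d v (Or.inl h1) (Or.inl h2) (Or.inl h3) (Or.inl h4) (Or.inl h5)
      (Or.inr ((edge_adj ..).2 ⟨Or.inr ⟨rfl, rfl⟩, huv.symm⟩)) (fun e => n1 (by rw [e])) ?_ ?_
      (fun e => n2 (by rw [e])) ?_ ?_ (fun e => n3 (by rw [e])) ?_ (fun e => n4 (by rw [e]))
    · rintro rfl; exact no3 h h1 h2 h3
    · rintro rfl; exact hn h5
    · rintro rfl; exact no3 h h2 h3 h4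
    · rintro rfl; exact hn h1
    · rintro rfl; exact no3 h h3 h4 h5
  · obtain ⟨f, a, -⟩ := key _ c
    exact no3 h (a 0 1 (by decide)) (a 1 2 (by decide)) (a 2 0 (by decide))
  · obtain ⟨f, a, m⟩ := key _ c
    exact no4 h (a 0 1 (by decide)) (a 1 2 (by decide)) (a 2 3 (by decide)) (a 3 0 (by decide))
      (m _ _ (by decide)) (m _ _ (by decide))
  · obtain ⟨f, a, m⟩ := key _ c
    exact no5 h (a 0 1 (by decide)) (a 1 2 (by decide)) (a 2 3 (by decide)) (a 3 4 (by decide))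
      (a 4 0 (by decide)) (m _ _ (by decide)) (m _ _ (by decide)) (m _ _ (by decide))
      (m _ _ (by decide)) (m _ _ (by decide))

theorem graph_of_card {F : Type*} [Field F] [Fintype F] (h : Good F) {r n : ℕ}
    (hr : 4 * r + 10 ≤ Fintype.card F) (h1 : n ≤ 2 * Fintype.card F ^ 3)
    (h2 : 2 * Fintype.card F ^ 3 ≤ n + r * Fintype.card F ^ 2) :
    ∃ G : SimpleGraph (Fin n), (¬ cycleGraph 6 ⊑ G ∧
      ∀ u v, u ≠ v → ¬ G.Adj u v → cycleGraph 6 ⊑ G ⊔ edge u v) ∧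
      ¬ cycleGraph 3 ⊑ G ∧ ¬ cycleGraph 4 ⊑ G ∧ ¬ cycleGraph 5 ⊑ G := by
  classical
  set X : Finset F := univ.filter Sq with hX
  have hc : Fintype.card F ≤ 2 * X.card + 1 := by
    have : (univ : Finset F) ⊆ insert 0 (X ∪ X.image Neg.neg) := by
      intro s _
      by_cases hs : s = 0
      · simp [hs]
      · rcases h.sq s with e | e
        · simp [hX, Sq, hs, e]
        · exact mem_insert_of_mem (mem_union_right _
            (mem_image.2 ⟨-s, by simp [hX, Sq, hs, e], neg_neg s⟩))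
    have h1 := card_le_card this
    have h2 := card_insert_le 0 (X ∪ X.image Neg.neg)
    have h3 := card_union_le X (X.image Neg.neg)
    have h4 := card_image_le (s := X) (f := Neg.neg)
    rw [card_univ] at h1
    omega
  obtain ⟨Z, hZ, hZr⟩ := exists_subset_card_eq (s := X) (n := r) (by omega)
  have hYr : (Z.image Neg.neg).card = r := by rw [card_image_of_injective _ neg_injective, hZr]
  obtain ⟨D, hD, hDc⟩ := exists_subset_card_eq
    (s := Z.image Neg.neg ×ˢ (univ : Finset (F × F))) (n := 2 * Fintype.card F ^ 3 - n)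
    (by rw [card_product, hYr, card_univ, Fintype.card_prod, ← sq]; omega)
  have hn : ((D.image (Sum.inl : _ → (F × F × F) ⊕ (F × F × F)))ᶜ).card = n := by
    rw [card_compl, card_image_of_injective _ Sum.inl_injective, hDc]
    simp only [Fintype.card_sum, Fintype.card_prod]
    rw [show Fintype.card F * (Fintype.card F * Fintype.card F) = Fintype.card F ^ 3 by ring]
    omega
  refine graph_of_map h (Z.image Neg.neg) (fun x hx hx' => ?_) (fun E hE => ?_)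
    (fun i => ((equivFinOfCardEq hn).symm i).1)
    (Subtype.val_injective.comp (Equiv.injective _)) fun v hv => ?_
  · obtain ⟨z, hz, rfl⟩ := mem_image.1 hx'
    exact h.not_both (mem_filter.1 (hZ hz)).2 hx
  · obtain ⟨x, hx, hx'⟩ := exists_mem_notMem_of_card_lt_card (s := E) (t := X) (by omega)
    exact ⟨x, (mem_filter.1 hx).2, hx'⟩
  · refine ⟨equivFinOfCardEq hn ⟨v, mem_compl.2 fun e => ?_⟩, by simp⟩
    obtain ⟨p, hp, rfl⟩ := mem_image.1 e
    exact hv (mem_product.1 (hD hp)).1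

theorem good_zmod {q : ℕ} [Fact q.Prime] (h4 : q % 4 = 3) (h7 : 7 < q) : Good (ZMod q) := by
  have hn : ∀ k : ℕ, 0 < k → k ≤ 7 → (k : ZMod q) ≠ 0 := fun k h1 h2 e =>
    absurd (Nat.le_of_dvd h1 ((ZMod.natCast_eq_zero_iff k q).1 e)) (by omega)
  have hneg : ¬ IsSquare (-1 : ZMod q) := fun e => ZMod.exists_sq_eq_neg_one_iff.1 e h4
  refine ⟨fun s => ?_, hneg, by exact_mod_cast hn 2 (by omega) (by omega),
    by exact_mod_cast hn 3 (by omega) (by omega), by exact_mod_cast hn 5 (by omega) (by omega),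
    by exact_mod_cast hn 7 (by omega) (by omega)⟩
  by_contra e
  rw [not_or, ← quadraticChar_neg_one_iff_not_isSquare,
    ← quadraticChar_neg_one_iff_not_isSquare, ← neg_one_mul s, map_mul,
    quadraticChar_neg_one_iff_not_isSquare.2 hneg] at e
  omega

theorem exists_prime_between {α β : ℝ} (hα : 0 < α) (hαβ : α < β) :
    ∀ᶠ x : ℝ in atTop, ∃ p : ℕ, p.Prime ∧ p % 4 = 3 ∧ α * x < p ∧ (p : ℝ) ≤ β * x := by
  have hu : IsUnit (3 : ZMod 4) := by decide
  have key : ∀ c : ℝ, 0 < c → Tendsto (fun k : ℝ =>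
      (∑ p ∈ Icc 1 ⌊c * k⌋₊ with (Nat.Prime p ∧ (Nat.cast p : ZMod 4) = 3), Real.log (p : ℕ)) / k)
      atTop (𝓝 (c * ((Nat.totient 4 : ℕ) : ℝ)⁻¹)) := by
    intro c hc
    have h := ((Pool.Agent.Shared.PNT.pnt_theta_residueClass hu).comp
      (tendsto_id.const_mul_atTop hc)).const_mul c
    refine h.congr' ?_
    filter_upwards [eventually_gt_atTop 0] with k hk
    simp only [Function.comp, id]
    field_simp
  have ht : (0 : ℝ) < ((Nat.totient 4 : ℕ) : ℝ)⁻¹ := by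
    rw [show Nat.totient 4 = 2 by decide]; norm_num
  have h := ((key β (hα.trans hαβ)).sub (key α hα)).eventually_const_lt
    (sub_pos.mpr (mul_lt_mul_of_pos_right hαβ ht))
  filter_upwards [h, eventually_gt_atTop 0] with x hx hx0
  by_contra hno
  rw [← sub_div, lt_div_iff₀ hx0, zero_mul, sub_pos] at hx
  refine hx.not_ge (sum_le_sum_of_subset_of_nonneg (fun p hp => ?_)
    fun p _ _ => Real.log_natCast_nonneg p)
  simp only [mem_filter, mem_Icc] at hp ⊢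
  refine ⟨⟨hp.1.1, ?_⟩, hp.2⟩
  have h1 : (p : ℝ) ≤ β * x :=
    le_trans (by exact_mod_cast hp.1.2) (Nat.floor_le (mul_pos (hα.trans hαβ) hx0).le)
  by_contra h2
  exact hno ⟨p, hp.2.1, (ZMod.natCast_eq_natCast_iff' p 3 4).1 (by exact_mod_cast hp.2.2),
    (Nat.floor_lt (mul_pos hα hx0).le).mp (not_le.mp h2), h1⟩

theorem exists_prime : ∀ᶠ n : ℕ in atTop, ∃ q : ℕ, q.Prime ∧ q % 4 = 3 ∧ 100 ≤ q ∧
    n ≤ 2 * q ^ 3 ∧ 15 * q ^ 3 ≤ 8 * n := by
  have ht : Tendsto (fun n : ℕ => (n : ℝ) ^ ((3 : ℕ) : ℝ)⁻¹) atTop atTop :=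
    (tendsto_rpow_atTop (by norm_num)).comp tendsto_natCast_atTop_atTop
  filter_upwards [ht.eventually (exists_prime_between (α := 0.8) (β := 0.81) (by norm_num)
    (by norm_num)), ht.eventually (eventually_ge_atTop 125)] with n ⟨q, h1, h2, h3, h4⟩ h5
  have e := Real.rpow_inv_natCast_pow (Nat.cast_nonneg n) (n := 3) (by norm_num)
  generalize (n : ℝ) ^ ((3 : ℕ) : ℝ)⁻¹ = x at *
  have k1 : (0.8 * x) ^ 3 ≤ (q : ℝ) ^ 3 := pow_le_pow_left₀ (by linarith) h3.le 3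
  have k2 : (q : ℝ) ^ 3 ≤ (0.81 * x) ^ 3 := pow_le_pow_left₀ (Nat.cast_nonneg q) h4 3
  have k0 : (0 : ℝ) ≤ n := Nat.cast_nonneg n
  rw [mul_pow, e] at k1 k2
  refine ⟨q, h1, h2, ?_, ?_, ?_⟩
  · exact_mod_cast (by linarith : (100 : ℝ) ≤ q)
  · exact_mod_cast (by linarith : (n : ℝ) ≤ 2 * (q : ℝ) ^ 3)
  · exact_mod_cast (by linarith : 15 * (q : ℝ) ^ 3 ≤ 8 * n)

end Pool.Agent.Lib.MP_7874c9_co.G7
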