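import Mathlib

/-! Every saturated graph on at least three vertices has a cycle of length three, five or seven. -/

open SimpleGraph

namespace Pool.Agent.Lib.MP_7874c9_co.G7

theorem cyc_of_fun {V : Type*} (G : SimpleGraph V) {k : ℕ} (f : Fin (k + 3) → V)
    (hf : Function.Injective f) (h : ∀ i, G.Adj (f i) (f (i + 1))) : cycleGraph (k + 3) ⊑ G := by
  refine ⟨⟨⟨f, fun {i j} e => ?_⟩, hf⟩⟩
  rcases cycleGraph_adj.1 e with e | e
  · rw [sub_eq_iff_eq_add'.1 e]; exact (h j).symm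
  · rw [sub_eq_iff_eq_add'.1 e]; exact h i

theorem path_of_sat {V : Type*} {G : SimpleGraph V} {u v : V} (h1 : ¬ cycleGraph 6 ⊑ G)
    (h2 : cycleGraph 6 ⊑ G ⊔ edge u v) : ∃ g : Fin 6 → V, Function.Injective g ∧
      ((g 0 = u ∧ g 5 = v) ∨ (g 0 = v ∧ g 5 = u)) ∧ ∀ j, j ≠ 5 → G.Adj (g j) (g (j + 1)) := by
  obtain ⟨f⟩ := h2
  have a : ∀ i : Fin 6, (G ⊔ edge u v).Adj (f i) (f (i + 1)) := fun i =>
    f.toHom.map_rel (by revert i; decide)
  obtain ⟨i, hi⟩ : ∃ i, ¬ G.Adj (f i) (f (i + 1)) := by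
    by_contra e
    exact h1 (cyc_of_fun G f f.injective (by simpa using e))
  have hi' := ((edge_adj ..).1 ((a i).resolve_left hi)).1
  refine ⟨fun j => f (i + 1 + j), f.injective.comp (add_right_injective _), ?_, fun j hj => ?_⟩
  · have : i + 1 + 5 = i := (by decide : ∀ i : Fin 6, i + 1 + 5 = i) i
    simp only [add_zero, this]
    exact hi'.symm.imp And.symm And.symm
  · simp only [← add_assoc]
    refine (a _).resolve_right fun e => ?_
    have e' := ((edge_adj ..).1 e).1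
    have k : ∀ i j : Fin 6, j ≠ 5 → i ≠ i + 1 + j ∧ (i + 1 = i + 1 + j → i ≠ i + 1 + j + 1) := by
      decide
    rcases hi' with ⟨p, q⟩ | ⟨p, q⟩ <;> rcases e' with ⟨r, s⟩ | ⟨r, s⟩
    · exact (k i j hj).1 (f.injective (p.trans r.symm))
    · exact (k i j hj).2 (f.injective (q.trans r.symm)) (f.injective (p.trans s.symm))
    · exact (k i j hj).2 (f.injective (q.trans r.symm)) (f.injective (p.trans s.symm))
    · exact (k i j hj).1 (f.injective (p.trans r.symm))

theorem odd_of_path {V : Type*} {G : SimpleGraph V} {w : V} (g : Fin 6 → V)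
    (hg : Function.Injective g) (a : ∀ j, j ≠ 5 → G.Adj (g j) (g (j + 1)))
    (h0 : G.Adj w (g 0)) (h5 : G.Adj (g 5) w) :
    cycleGraph 3 ⊑ G ∨ cycleGraph 5 ⊑ G ∨ cycleGraph 7 ⊑ G := by
  by_cases hw : ∃ j, g j = w
  · obtain ⟨j, rfl⟩ := hw
    fin_cases j
    · exact absurd rfl h0.ne
    · refine Or.inr (Or.inl (cyc_of_fun G (k := 2) (g ∘ ![1, 2, 3, 4, 5])
        (hg.comp (by decide)) fun i => ?_))
      fin_cases i
      exacts [a 1 (by decide), a 2 (by decide), a 3 (by decide), a 4 (by decide), h5]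
    · refine Or.inl (cyc_of_fun G (k := 0) (g ∘ ![0, 1, 2]) (hg.comp (by decide)) fun i => ?_)
      fin_cases i
      exacts [a 0 (by decide), a 1 (by decide), h0]
    · refine Or.inl (cyc_of_fun G (k := 0) (g ∘ ![3, 4, 5]) (hg.comp (by decide)) fun i => ?_)
      fin_cases i
      exacts [a 3 (by decide), a 4 (by decide), h5]
    · refine Or.inr (Or.inl (cyc_of_fun G (k := 2) (g ∘ ![0, 1, 2, 3, 4])
        (hg.comp (by decide)) fun i => ?_))
      fin_cases i
      exacts [a 0 (by decide), a 1 (by decide), a 2 (by decide), a 3 (by decide), h0]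
    · exact absurd rfl h5.ne
  · refine Or.inr (Or.inr (cyc_of_fun G (k := 4) (Fin.cons w g)
      (Fin.cons_injective_of_injective hw hg) fun i => ?_))
    fin_cases i
    exacts [h0, a 0 (by decide), a 1 (by decide), a 2 (by decide), a 3 (by decide),
      a 4 (by decide), h5]

theorem odd_of_sat {n : ℕ} (hn : 3 ≤ n) (G : SimpleGraph (Fin n)) (h1 : ¬ cycleGraph 6 ⊑ G)
    (h2 : ∀ u v, u ≠ v → ¬ G.Adj u v → cycleGraph 6 ⊑ G ⊔ edge u v) :
    cycleGraph 3 ⊑ G ∨ cycleGraph 5 ⊑ G ∨ cycleGraph 7 ⊑ G := by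
  have tri : ∀ u w v, G.Adj u w → G.Adj w v → u ≠ v →
      cycleGraph 3 ⊑ G ∨ cycleGraph 5 ⊑ G ∨ cycleGraph 7 ⊑ G := by
    intro u w v e1 e2 e3
    by_cases e : G.Adj u v
    · refine Or.inl (cyc_of_fun G (k := 0) ![u, w, v] ?_ fun i => ?_)
      · have := e1.ne
        have := e2.ne
        intro i j h
        fin_cases i <;> fin_cases j <;>
          first | rfl | exact absurd h (by assumption) | exact absurd h.symm (by assumption)
      · fin_cases i
        exacts [e1, e2, e.symm]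
    · obtain ⟨g, hg, ⟨rfl, rfl⟩ | ⟨rfl, rfl⟩, a⟩ := path_of_sat h1 (h2 u v e3 e)
      · exact odd_of_path g hg a e1.symm e2.symm
      · exact odd_of_path g hg a e2 e1
  have pair : ∀ u v, u ≠ v → ¬ G.Adj u v →
      cycleGraph 3 ⊑ G ∨ cycleGraph 5 ⊑ G ∨ cycleGraph 7 ⊑ G := by
    intro u v e e'
    obtain ⟨g, hg, -, a⟩ := path_of_sat h1 (h2 u v e e')
    exact tri _ _ _ (a 0 (by decide)) (a 1 (by decide)) (hg.ne (by decide))
  by_cases e1 : G.Adj ⟨0, by omega⟩ ⟨1, by omega⟩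
  · by_cases e2 : G.Adj ⟨1, by omega⟩ ⟨2, by omega⟩
    · exact tri _ _ _ e1 e2 (by simp)
    · exact pair _ _ (by simp) e2
  · exact pair _ _ (by simp) e1

theorem egirth_le_of_sat {n : ℕ} (hn : 3 ≤ n) (G : SimpleGraph (Fin n))
    (h1 : ¬ cycleGraph 6 ⊑ G) (h2 : ∀ u v, u ≠ v → ¬ G.Adj u v → cycleGraph 6 ⊑ G ⊔ edge u v) :
    G.egirth ≤ 7 := by
  rcases odd_of_sat hn G h1 h2 with h | h | h <;>
  · obtain ⟨v, p, hp, e⟩ := (cycleGraph_isContained_iff (by norm_num)).1 h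
    refine (egirth_le_length hp).trans ?_
    rw [e]
    norm_num

theorem seven_le_egirth {V : Type*} {G : SimpleGraph V} (c3 : ¬ cycleGraph 3 ⊑ G)
    (c4 : ¬ cycleGraph 4 ⊑ G) (c5 : ¬ cycleGraph 5 ⊑ G) (c6 : ¬ cycleGraph 6 ⊑ G) :
    7 ≤ G.egirth := by
  refine le_egirth.2 fun a w hw => ?_
  have h3 := hw.three_le_length
  have h := (cycleGraph_isContained_iff h3).2 ⟨a, w, hw, rfl⟩
  generalize w.length = k at h3 h
  by_contra e
  have : k < 7 := by exact_mod_cast not_le.1 e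
  interval_cases k <;> contradiction

end Pool.Agent.Lib.MP_7874c9_co.G7
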